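import Mathlib

set_option autoImplicit false

open List

namespace Pool.Agent.Results.MP_f664e7_co.Full

/-- Same relative order (same standardization). -/
def SameOrder (p s : List ℕ+) : Prop := p.length = s.length ∧
  ∀ i j, i < p.length → j < p.length → (p.getD i 1 < p.getD j 1 ↔ s.getD i 1 < s.getD j 1)

/-- Cyclic shuffles of `[p]` and `[s]`. -/
def Sh (p s : List ℕ+) : Set (Cycle ℕ+) := {c | ∃ t : List ℕ+, c = t ∧ t.Nodup ∧
  t.length = p.length + s.length ∧ (∃ p', p' ~r p ∧ p' <+ t) ∧ ∃ s', s' ~r s ∧ s' <+ t}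

/-- Cyclic descent set of a word (positions `0, …, n-1`, indices modulo `n`). -/
def cDes (p : List ℕ+) : Finset ℕ :=
  (Finset.range p.length).filter fun i => p.getD ((i + 1) % p.length) 1 < p.getD i 1

/-- `cDes [p]`: the multiset of the cyclic descent sets of all rotations. -/
def cDesC (p : List ℕ+) : Multiset (Finset ℕ) := (p.cyclicPermutations.map cDes : List _)

def iv : List ℕ+ → ℕ
  | [] => 0
  | a :: l => l.countP (· < a) + iv l

lemma iv_app (y : List ℕ+) : ∀ x : List ℕ+,
    iv (x ++ y) = iv x + iv y + (x.map fun a => y.countP (· < a)).sum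
  | [] => by simp [iv]
  | a :: x => by simp [iv, iv_app y x]; ring

lemma cross {x x' y y' : List ℕ+} (hx : x ~ x') (hy : y ~ y') :
    (x.map fun a => y.countP (· < a)).sum = (x'.map fun a => y'.countP (· < a)).sum := by
  simp only [hy.countP_eq]; exact (hx.map _).sum_eq

lemma iv_rot (a : ℕ+) : ∀ {l : List ℕ+}, a ∉ l → (iv (l ++ [a]) + iv (a :: l)) % 2 = l.length % 2
  | [], _ => by simp [iv]
  | b :: l, h => by
    have := iv_rot a (not_mem_of_not_mem_cons h)
    rcases lt_or_gt_of_ne (ne_of_not_mem_cons h) with c | c <;>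
      simp [iv, c, c.not_gt] at this ⊢ <;> omega

lemma iv_isRot {l l' : List ℕ+} (h : l ~r l') (hn : l.Nodup) (ho : l.length % 2 = 1) :
    iv l % 2 = iv l' % 2 := by
  obtain ⟨n, rfl⟩ := h
  induction n generalizing l with
  | zero => simp
  | succ n ih =>
    cases l with
    | nil => simp
    | cons a l =>
      have := iv_rot a (nodup_cons.1 hn).1
      have := ih (l := l ++ [a]) ((perm_append_singleton a l).nodup_iff.2 hn) (by simpa using ho)
      rw [rotate_cons_succ]
      simp only [length_cons] at ho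
      omega

lemma iv_perm (φ : ℕ+ ≃ ℕ+) {t t' : List ℕ+} (h : t ~ t') (hn : t.Nodup) :
    (iv (t.map φ) + iv t) % 2 = (iv (t'.map φ) + iv t') % 2 := by
  induction h with
  | nil => rfl
  | cons a h ih =>
    have := ih hn.of_cons
    simp only [map_cons, iv, h.countP_eq, (h.map φ).countP_eq]
    omega
  | swap a b l =>
    have n : b ≠ a := ne_of_not_mem_cons (nodup_cons.1 hn).1
    rcases lt_or_gt_of_ne n with c | c <;> rcases lt_or_gt_of_ne (φ.injective.ne n) with d | d <;>
      simp [iv, c, c.not_gt, d, d.not_gt] <;> omega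
  | trans h _ i1 i2 => exact (i1 hn).trans (i2 (h.nodup_iff.1 hn))

open Classical in
noncomputable def cst (c : Cycle ℕ+) : Bool :=
  decide (∃ l : List ℕ+, c = l ∧ l.length % 2 = 1 ∧ iv l % 2 = 1)

lemma cst_iff {l : List ℕ+} (hn : l.Nodup) : cst l = true ↔ l.length % 2 = 1 ∧ iv l % 2 = 1 := by
  simp only [cst, decide_eq_true_eq]
  refine ⟨fun ⟨l', h, a, b⟩ => ?_, fun h => ⟨l, rfl, h⟩⟩
  have h := Cycle.coe_eq_coe.1 h
  rw [← h.perm.length_eq] at a
  exact ⟨a, (iv_isRot h hn a).trans b⟩

lemma cnt (a b : ℕ+) : ∀ {p s : List ℕ+}, p.length = s.length →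
    (∀ j, j < p.length → (p.getD j 1 < a ↔ s.getD j 1 < b)) → p.countP (· < a) = s.countP (· < b)
  | [], [], _, _ => rfl
  | [], _ :: _, h, _ => by simp at h
  | _ :: _, [], h, _ => by simp at h
  | x :: p, y :: s, e, h => by
    have h0 : x < a ↔ y < b := by simpa using h 0 (by simp)
    have := cnt a b (p := p) (s := s) (by simpa using e) fun j hj => by
      simpa using h (j + 1) (by simpa)
    simp [countP_cons, this, h0]

lemma iv_same : ∀ {p s : List ℕ+}, SameOrder p s → iv p = iv s
  | [], [], _ => rfl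
  | [], _ :: _, h => by simp [SameOrder] at h
  | _ :: _, [], h => by simp [SameOrder] at h
  | a :: p, b :: s, h => by
    have e : p.length = s.length := by simpa using h.1
    have := iv_same (p := p) (s := s) ⟨e, fun i j hi hj => by
      simpa using h.2 (i + 1) (j + 1) (by simpa) (by simpa)⟩
    rw [iv, iv, this, cnt a b e fun j hj => by simpa using h.2 (j + 1) 0 (by simpa) (by simp)]

lemma Sh_map (φ : ℕ+ ≃ ℕ+) {p s : List ℕ+} {c : Cycle ℕ+} (h : c ∈ Sh p s) :
    c.map φ ∈ Sh (p.map φ) (s.map φ) := by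
  obtain ⟨t, rfl, a, b, ⟨p', c1, c2⟩, s', d1, d2⟩ := h
  exact ⟨t.map φ, rfl, a.map φ.injective, by simpa using b, ⟨_, c1.map φ, c2.map φ⟩, _, d1.map φ,
    d2.map φ⟩

lemma Sh_rot {p s p' s' : List ℕ+} (hp : p ~r p') (hs : s ~r s') : Sh p s ⊆ Sh p' s' := by
  rintro _ ⟨t, rfl, a, b, ⟨_, c1, c2⟩, _, d1, d2⟩
  exact ⟨t, rfl, a, by rw [b, hp.perm.length_eq, hs.perm.length_eq], ⟨_, c1.trans hp, c2⟩, _,
    d1.trans hs, d2⟩

lemma le {p s p' s' : List ℕ+} (h : (p ++ s).Nodup) (h' : (p' ++ s').Nodup)
    (lp : p.length = p'.length) (ls : s.length = s'.length) (cp : cst p = cst p')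
    (cs : cst s = cst s') (b : Bool) :
    {c ∈ Sh p s | cst c = b}.encard ≤ {c ∈ Sh p' s' | cst c = b}.encard := by
  obtain ⟨q, r, hq, hr, e⟩ : ∃ q r, q ~r p' ∧ r ~r s' ∧
      ((p ++ s).length % 2 = 1 → iv (q ++ r) % 2 = iv (p ++ s) % 2) := by
    by_cases e : (p ++ s).length % 2 = 1 → iv (p' ++ s') % 2 = iv (p ++ s) % 2
    · exact ⟨p', s', .refl _, .refl _, e⟩
    push Not at e
    obtain ⟨o, e⟩ := e
    rw [length_append] at o
    have c1 := cst_iff h.of_append_left
    have c2 := cst_iff h'.of_append_left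
    have c3 := cst_iff h.of_append_right
    have c4 := cst_iff h'.of_append_right
    by_cases ev : s.length % 2 = 0
    · cases s' with
      | nil =>
        obtain rfl : s = [] := by simpa using ls
        rw [cp, c2] at c1
        simp at e o; omega
      | cons a l =>
        refine ⟨p', l ++ [a], .refl _, ⟨l.length, by simp⟩, fun _ => ?_⟩
        have := iv_rot a (nodup_cons.1 h'.of_append_right).1
        rw [iv_app _ p'] at e ⊢
        rw [cross (.refl _) (perm_append_singleton a l)]
        simp only [length_cons] at ls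
        omega
    · cases p' with
      | nil =>
        obtain rfl : p = [] := by simpa using lp
        rw [cs, c4] at c3
        simp at e o; omega
      | cons a l =>
        refine ⟨l ++ [a], s', ⟨l.length, by simp⟩, .refl _, fun _ => ?_⟩
        have := iv_rot a (nodup_cons.1 h'.of_append_left).1
        rw [iv_app s' (a :: l)] at e
        rw [iv_app s' (l ++ [a]), cross (perm_append_singleton a l) (.refl _)]
        simp only [length_cons] at lp
        omega
  have hn : (q ++ r).Nodup := (hq.perm.append hr.perm).nodup_iff.2 h'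
  have hl : (p ++ s).length = (q ++ r).length := by
    simp [hq.perm.length_eq, hr.perm.length_eq, lp, ls]
  obtain ⟨φ, hφ⟩ := Equiv.Perm.exists_extending_pair _ _ (nodup_iff_injective_get.1 h)
    ((nodup_iff_injective_get.1 hn).comp (Fin.cast_injective hl))
  have m : (p ++ s).map φ = q ++ r := ext_get (by simpa using hl) fun i a b => by
    rw [get_eq_getElem, getElem_map]
    exact hφ ⟨i, by simpa using a⟩
  rw [map_append] at m
  obtain ⟨m1, m2⟩ := append_inj m (by simp [hq.perm.length_eq, lp])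
  refine Set.encard_le_encard_of_injOn (f := Cycle.map φ) (fun c hc => ⟨Sh_rot hq hr
    (m1 ▸ m2 ▸ Sh_map φ hc.1), ?_⟩) fun c _ d _ e => ?_
  · obtain ⟨⟨t, rfl, a, l, ⟨p1, c1, c2⟩, s1, d1, d2⟩, rfl⟩ := hc
    have pm : p ++ s ~ t := (subperm_of_subset h fun x hx => (mem_append.1 hx).elim
      (fun hx => c2.subset (c1.perm.mem_iff.2 hx))
      fun hx => d2.subset (d1.perm.mem_iff.2 hx)).perm_of_length_le (by simp [l])
    have := iv_perm φ pm h
    rw [map_append, m, pm.length_eq] at *
    rw [Bool.eq_iff_iff, Cycle.map_coe, cst_iff a, cst_iff (a.map φ.injective), length_map]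
    omega
  · induction c using Quotient.inductionOn'
    induction d using Quotient.inductionOn'
    simpa using (Cycle.coe_eq_coe.1 e).map φ.symm

theorem result : ∃ cst : Cycle ℕ+ → Bool,
    (∀ p s : List ℕ+, p.Nodup → s.Nodup → SameOrder p s → cst p = cst s) ∧
    (∀ p s p' s' : List ℕ+, (p ++ s).Nodup → (p' ++ s').Nodup → cst p = cst p' → cst s = cst s' →
      p.length = p'.length → s.length = s'.length →
      ∀ b, {c ∈ Sh p s | cst c = b}.encard = {c ∈ Sh p' s' | cst c = b}.encard) ∧
    ∃ p s : List ℕ+, p.Nodup ∧ s.Nodup ∧ p.length = s.length ∧ cDesC p = cDesC s ∧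
      cst p ≠ cst s := by
  refine ⟨cst, fun p s a b h => ?_, fun p s p' s' h h' a b c d x => le_antisymm
    (le h h' c d a b x) (le h' h c.symm d.symm a.symm b.symm x), [1, 3, 2, 5, 4], [1, 4, 2, 5, 3],
    by decide, by decide, rfl, by decide, ?_⟩
  · rw [Bool.eq_iff_iff, cst_iff a, cst_iff b, h.1, iv_same h]
  · rw [Ne, Bool.eq_iff_iff, cst_iff (by decide), cst_iff (by decide)]
    decide

end Pool.Agent.Results.MP_f664e7_co.Full
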